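import Pool.Agent.Y892.DP.Stm
import Pool.Agent.Y63.KR.Basic

/-!
# Project DP (helper892): the Knörr–Robinson sum and commuting pairs; sums over central subgroups
-/

set_option autoImplicit false

open scoped Classical BigOperators

noncomputable section

namespace Pool.Agent.Y528.DP

open Pool.Agent.Y63.KR Pool.Agent.Y63.AWC Pool.Agent.Y892.DP

lemma fs {α : Type} [Fintype α] (P : α → Prop) (f : α → ℤ) :
    ∑ᶠ q : {q : α // P q}, f q.1 = ∑ q : α, if P q then f q else 0 := by
  rw [finsum_eq_sum_of_fintype, ← Finset.sum_filter]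
  exact (Finset.sum_subtype _ (by simp) f).symm

/-- the number of conjugacy classes is invariant under isomorphisms -/
lemma card_conj_congr {H K : Type} [Group H] [Group K] (e : H ≃* K) :
    Nat.card (ConjClasses H) = Nat.card (ConjClasses K) := by
  refine Nat.card_congr
    { toFun := ConjClasses.map e.toMonoidHom
      invFun := ConjClasses.map e.symm.toMonoidHom
      left_inv := fun c => ?_
      right_inv := fun c => ?_ }
  · induction c using Quotient.inductionOn with
    | _ x =>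
      show ConjClasses.mk (e.symm (e x)) = ConjClasses.mk x
      rw [e.symm_apply_apply]
  · induction c using Quotient.inductionOn with
    | _ x =>
      show ConjClasses.mk (e (e.symm x)) = ConjClasses.mk x
      rw [e.apply_symm_apply]

theorem krp (h : S_GEN) : S_KRP := by
  intro p _ G _ _
  have : Fintype G := Fintype.ofFinite G
  have : Fintype {q : G × G // q.1 * q.2 = q.2 * q.1} := Fintype.ofFinite _
  have hmain := h G (⊤ : Subgroup G) (above p ⊥)
    (fun σ => (Nat.card (ConjClasses (chainStabilizer σ)) : ℤ))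
    {q : G × G // q.1 * q.2 = q.2 * q.1} (fun q => {q.1.1, q.1.2}) (fun _ => 1) 1
    (by
      rintro n - P ⟨h1, h2⟩
      refine ⟨h1.map _, ?_⟩
      rw [bot_lt_iff_ne_bot] at h2 ⊢
      exact conjSub_ne_bot h2)
    (by
      intro n _ σ
      show (Nat.card (ConjClasses (chainStabilizer (conjSub n '' σ.1))) : ℤ) =
        (Nat.card (ConjClasses (chainStabilizer σ.1)) : ℤ)
      rw [chainStabilizer_conj]
      exact congrArg _ (card_conj_congr
        (Subgroup.equivMapOfInjective _ _ (MulAut.conj n).injective).symm))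
    (by
      intro σ
      rw [top_inf_eq, one_mul]
      set H := chainStabilizer σ.1 with hH
      have e1 : Nat.card {p : H × H // Commute p.1 p.2} =
          Nat.card (ConjClasses H) * Nat.card H := card_comm_eq_card_conjClasses_mul_card H
      have e2 : Nat.card {p : H × H // Commute p.1 p.2} =
          Nat.card {t : {q : G × G // q.1 * q.2 = q.2 * q.1} //
            ({t.1.1, t.1.2} : Set G) ⊆ (H : Set G)} := by
        refine Nat.card_congr
          { toFun := fun z => ⟨⟨(z.1.1.1, z.1.2.1), congrArg Subtype.val z.2.eq⟩, ?_⟩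
            invFun := fun t => ⟨(⟨t.1.1.1, t.2 (by simp)⟩, ⟨t.1.1.2, t.2 (by simp)⟩), ?_⟩
            left_inv := fun z => rfl
            right_inv := fun t => rfl }
        · rintro x (rfl | rfl)
          · exact z.1.1.2
          · exact z.1.2.2
        · exact Subtype.ext t.1.2
      have e3 : (∑ t : {q : G × G // q.1 * q.2 = q.2 * q.1},
          if ({t.1.1, t.1.2} : Set G) ⊆ (H : Set G) then (1 : ℂ) else 0) =
          (Nat.card {t : {q : G × G // q.1 * q.2 = q.2 * q.1} //
            ({t.1.1, t.1.2} : Set G) ⊆ (H : Set G)} : ℂ) := by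
        rw [Finset.sum_boole, Nat.card_eq_fintype_card, Fintype.card_subtype]
      rw [e3, ← e2, e1]
      push_cast
      ring)
  rw [one_mul, Subgroup.card_top] at hmain
  rw [finsum_eq_sum_of_fintype]
  have h2 : ((Nat.card G : ℤ) : ℂ) * ((krSum p G : ℤ) : ℂ) =
      ((∑ q : {q : G × G // q.1 * q.2 = q.2 * q.1},
        w (fx (above p ⊥) {q.1.1, q.1.2}) : ℤ) : ℂ) := by
    push_cast
    rw [show (krSum p G : ℂ) = ((altSum (⊤ : Subgroup G) (above p ⊥)
      (fun σ => (Nat.card (ConjClasses (chainStabilizer σ)) : ℤ)) : ℤ) : ℂ) from rfl, hmain]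
    exact Finset.sum_congr rfl fun q _ => one_mul _
  exact_mod_cast h2

/-! ### Quotients -/

lemma sum_mk {G : Type} [Group G] [Fintype G] (K : Subgroup G) [Fintype (G ⧸ K)]
    (f : G ⧸ K → ℤ) : ∑ x : G, f (x : G ⧸ K) = (Nat.card K : ℤ) * ∑ u : G ⧸ K, f u := by
  have hfib : ∀ u : G ⧸ K, ((Finset.univ.filter fun x : G => (x : G ⧸ K) = u).card : ℤ) =
      Nat.card K := by
    intro u
    obtain ⟨g, rfl⟩ := QuotientGroup.mk_surjective u
    rw [← Fintype.card_subtype, ← Nat.card_eq_fintype_card]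
    norm_cast
    refine Nat.card_congr
      { toFun := fun x => ⟨g⁻¹ * x.1, QuotientGroup.eq.1 x.2.symm⟩
        invFun := fun k => ⟨g * k.1, by
          rw [eq_comm, QuotientGroup.eq, inv_mul_cancel_left]
          exact k.2⟩
        left_inv := fun x => Subtype.ext (mul_inv_cancel_left _ _)
        right_inv := fun k => Subtype.ext (inv_mul_cancel_left _ _) }
  rw [← Finset.sum_fiberwise Finset.univ (fun x : G => (x : G ⧸ K)), Finset.mul_sum]
  refine Finset.sum_congr rfl fun u _ => ?_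
  rw [Finset.sum_congr rfl (g := fun _ => f u) (fun x hx => by
    rw [(Finset.mem_filter.1 hx).2]), Finset.sum_const, nsmul_eq_mul, hfib]

theorem c3 (hCQ : S_CQ) (hKRP : S_KRP) : S_C3 := by
  intro p _ G _ _ Z₀ K _ hK hZ
  have : Fintype G := Fintype.ofFinite G
  have : Fintype K := Fintype.ofFinite K
  have : Fintype (G ⧸ K) := Fintype.ofFinite _
  have hq := hKRP p (G ⧸ K)
  set W : (G ⧸ K) × (G ⧸ K) → ℤ := fun q => w (fx (above p (⊥ : Subgroup (G ⧸ K))) {q.1, q.2})
    with hW
  have hw : ∀ q : G × G, w (fx (above p Z₀) {q.1, q.2}) = W ((q.1 : G ⧸ K), (q.2 : G ⧸ K)) := by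
    intro q
    rw [hCQ p G Z₀ K {q.1, q.2} hK hZ, Set.image_pair]
  rw [fs (fun q : (G ⧸ K) × (G ⧸ K) => q.1 * q.2 = q.2 * q.1) W] at hq
  have h1 : ∀ a : K, cc p Z₀ (a : G) = ∑ q : G × G, if q.1 * q.2 = (a : G) * (q.2 * q.1) then
      W ((q.1 : G ⧸ K), (q.2 : G ⧸ K)) else 0 := by
    intro a
    unfold cc
    rw [← fs (fun q : G × G => q.1 * q.2 = (a : G) * (q.2 * q.1))
      (fun q => W ((q.1 : G ⧸ K), (q.2 : G ⧸ K)))]
    exact finsum_congr fun q => hw q.1
  rw [finsum_congr h1, finsum_eq_sum_of_fintype, Finset.sum_comm]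
  have h2 : ∀ q : G × G, (∑ a : K, if q.1 * q.2 = (a : G) * (q.2 * q.1) then
      W ((q.1 : G ⧸ K), (q.2 : G ⧸ K)) else 0) =
      if (q.1 : G ⧸ K) * (q.2 : G ⧸ K) = (q.2 : G ⧸ K) * (q.1 : G ⧸ K) then
        W ((q.1 : G ⧸ K), (q.2 : G ⧸ K)) else 0 := by
    intro q
    have hiff : ((q.1 : G ⧸ K) * (q.2 : G ⧸ K) = (q.2 : G ⧸ K) * (q.1 : G ⧸ K)) ↔
        (q.1 * q.2) * (q.2 * q.1)⁻¹ ∈ K := by
      rw [← QuotientGroup.mk_mul, ← QuotientGroup.mk_mul, eq_comm, QuotientGroup.eq]
      constructor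
      · intro hh
        have := (inferInstance : K.Normal).conj_mem _ hh (q.2 * q.1)
        have e : q.2 * q.1 * ((q.2 * q.1)⁻¹ * (q.1 * q.2)) * (q.2 * q.1)⁻¹ =
          (q.1 * q.2) * (q.2 * q.1)⁻¹ := by group
        rwa [e] at this
      · intro hh
        have := (inferInstance : K.Normal).conj_mem _ hh (q.2 * q.1)⁻¹
        have e : (q.2 * q.1)⁻¹ * ((q.1 * q.2) * (q.2 * q.1)⁻¹) * (q.2 * q.1)⁻¹⁻¹ =
          (q.2 * q.1)⁻¹ * (q.1 * q.2) := by group
        rwa [e] at this
    by_cases hc : (q.1 * q.2) * (q.2 * q.1)⁻¹ ∈ K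
    · rw [if_pos (hiff.2 hc), Finset.sum_eq_single (⟨(q.1 * q.2) * (q.2 * q.1)⁻¹, hc⟩ : K)]
      · rw [if_pos]
        show q.1 * q.2 = (q.1 * q.2) * (q.2 * q.1)⁻¹ * (q.2 * q.1)
        group
      · intro b _ hb
        rw [if_neg]
        intro hh
        apply hb
        apply Subtype.ext
        show (b : G) = (q.1 * q.2) * (q.2 * q.1)⁻¹
        rw [hh]
        group
      · intro hn
        exact absurd (Finset.mem_univ _) hn
    · rw [if_neg (fun hh => hc (hiff.1 hh))]
      refine Finset.sum_eq_zero fun b _ => ?_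
      rw [if_neg]
      intro hh
      apply hc
      have : (q.1 * q.2) * (q.2 * q.1)⁻¹ = (b : G) := by
        rw [hh]
        group
      rw [this]
      exact b.2
  rw [Finset.sum_congr rfl fun q _ => h2 q]
  set V : (G ⧸ K) × (G ⧸ K) → ℤ := fun q => if q.1 * q.2 = q.2 * q.1 then W q else 0 with hV
  have h3 : ∑ q : G × G, V ((q.1 : G ⧸ K), (q.2 : G ⧸ K)) =
      (Nat.card K : ℤ) * ((Nat.card K : ℤ) * ∑ q : (G ⧸ K) × (G ⧸ K), V q) := by
    rw [Fintype.sum_prod_type, Fintype.sum_prod_type]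
    have e1 : ∀ x : G, ∑ y : G, V ((x : G ⧸ K), (y : G ⧸ K)) =
        (fun u => (Nat.card K : ℤ) * ∑ v : G ⧸ K, V (u, v)) (x : G ⧸ K) := fun x =>
      sum_mk K (fun v => V ((x : G ⧸ K), v))
    rw [Finset.sum_congr rfl fun x _ => e1 x,
      sum_mk K (fun u => (Nat.card K : ℤ) * ∑ v : G ⧸ K, V (u, v)), ← Finset.mul_sum]
  have h4 : (Nat.card G : ℤ) = (Nat.card (G ⧸ K) : ℤ) * (Nat.card K : ℤ) := by
    exact_mod_cast Subgroup.card_eq_card_quotient_mul_card_subgroup K
  show ∑ q : G × G, V ((q.1 : G ⧸ K), (q.2 : G ⧸ K)) = _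
  rw [h3]
  have h5 : ∑ q : (G ⧸ K) × (G ⧸ K), V q = (Nat.card (G ⧸ K) : ℤ) * krSum p (G ⧸ K) := by
    rw [hq]
    refine Finset.sum_congr rfl fun q _ => ?_
    by_cases hc : q.1 * q.2 = q.2 * q.1
    · rw [if_pos hc]
      exact if_pos hc
    · rw [if_neg hc]
      exact if_neg hc
  rw [h5, h4]
  ring

end Pool.Agent.Y528.DP

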